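import Mathlib

/-!
# Surjective polynomial Toeplitz maps (for the Kronecker canonical form of square pencils)

Given block sizes `δ i` such that `d * #{δ = d} ≤ #{δ < d}` for all `d`, there is a matrix of
polynomials `Φ j i` such that `Φ j i` maps the polynomials of degree `≤ δ i` to the polynomials of
degree `< δ j` and `Φ` maps `⨁ P_{≤ δ i}` onto `⨁ P_{< δ j}`.
-/

open Polynomial

namespace Pool.Agent.Q6.PencilSticks

variable {K : Type*} [Field K]

/-- multiplication by `g` maps polynomials of degree `< a` to polynomials of degree `< b` -/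
def Dg (g : K[X]) (a b : ℕ) : Prop := ∀ r ∈ degreeLT K a, g * r ∈ degreeLT K b

theorem Dg.zero (a b : ℕ) : Dg (0 : K[X]) a b := fun r _ => by simp

theorem Dg.add {g h : K[X]} {a b : ℕ} (hg : Dg g a b) (hh : Dg h a b) : Dg (g + h) a b :=
  fun r hr => by rw [add_mul]; exact Submodule.add_mem _ (hg r hr) (hh r hr)

theorem Dg.neg {g : K[X]} {a b : ℕ} (hg : Dg g a b) : Dg (-g) a b :=
  fun r hr => by rw [neg_mul]; exact Submodule.neg_mem _ (hg r hr)

theorem Dg.sub {g h : K[X]} {a b : ℕ} (hg : Dg g a b) (hh : Dg h a b) : Dg (g - h) a b := by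
  rw [sub_eq_add_neg]; exact hg.add hh.neg

theorem Dg.comp {g h : K[X]} {a b c : ℕ} (hg : Dg g b c) (hh : Dg h a b) : Dg (g * h) a c :=
  fun r hr => by rw [mul_assoc]; exact hg _ (hh r hr)

theorem degreeLT_mono' {a b : ℕ} (h : a ≤ b) {r : K[X]} (hr : r ∈ degreeLT K a) :
    r ∈ degreeLT K b := degreeLT_mono h hr

theorem Dg.mono {g : K[X]} {a a' b b' : ℕ} (hg : Dg g a b) (h1 : a' ≤ a) (h2 : b ≤ b') :
    Dg g a' b' := fun r hr => degreeLT_mono' h2 (hg r (degreeLT_mono' h1 hr))

theorem Dg.X_pow {k a b : ℕ} (h : k + a ≤ b) : Dg (X ^ k : K[X]) a b := by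
  intro r hr
  rw [mem_degreeLT] at hr ⊢
  rcases eq_or_ne r 0 with rfl | h0
  · simp
  rw [degree_mul, degree_X_pow]
  rw [degree_eq_natDegree h0] at hr ⊢
  norm_cast at hr ⊢
  omega

theorem Dg.of_degree {g : K[X]} {a b : ℕ} (h : g = 0 ∨ g.natDegree + a ≤ b) : Dg g a b := by
  rcases eq_or_ne g 0 with rfl | hg
  · exact Dg.zero _ _
  intro r hr
  rw [mem_degreeLT] at hr ⊢
  rcases eq_or_ne r 0 with rfl | h0
  · simp
  rw [degree_mul]
  rw [degree_eq_natDegree h0] at hr ⊢
  rw [degree_eq_natDegree hg]
  have h := h.resolve_left hg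
  norm_cast at hr ⊢
  omega

theorem Dg.natDegree {g : K[X]} {a b : ℕ} (hg : Dg g a b) (ha : 0 < a) (h0 : g ≠ 0) :
    g.natDegree + a ≤ b := by
  have h := hg (X ^ (a - 1)) (by
    rw [mem_degreeLT, degree_X_pow]
    exact_mod_cast (by omega : a - 1 < a))
  rw [mem_degreeLT, degree_mul, degree_X_pow, degree_eq_natDegree h0] at h
  norm_cast at h
  omega

theorem Dg.len_zero {g : K[X]} {b : ℕ} : Dg g 0 b := by
  intro r hr
  rw [mem_degreeLT] at hr
  have : r = 0 := by
    by_contra h0
    rw [degree_eq_natDegree h0] at hr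
    norm_cast at hr
  simp [this]

/-- splitting a multiplier over two overlapping sticks -/
theorem split {f : K[X]} {e m p D : ℕ} (he : 0 < e) (hf : Dg f e D) (hlen : m + p ≤ D + 1) :
    ∃ g h : K[X], Dg g (m + e) D ∧ Dg h p D ∧ X ^ m * g - h = f := by
  rcases eq_or_ne f 0 with rfl | h0
  · exact ⟨0, 0, Dg.zero _ _, Dg.zero _ _, by simp⟩
  have hd := hf.natDegree he h0
  have hm : (X ^ m : K[X]).Monic := monic_X_pow m
  refine ⟨f /ₘ X ^ m, -(f %ₘ X ^ m), ?_, ?_, ?_⟩
  · apply Dg.of_degree
    rcases eq_or_ne (f /ₘ X ^ m) 0 with h | h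
    · exact Or.inl h
    right
    rw [natDegree_divByMonic _ hm, natDegree_X_pow]
    have : m ≤ f.natDegree := by
      by_contra hlt
      apply h
      rw [divByMonic_eq_zero_iff hm, degree_X_pow, degree_eq_natDegree h0]
      exact_mod_cast (by omega)
    omega
  · apply Dg.neg
    apply Dg.of_degree
    rcases eq_or_ne (f %ₘ X ^ m) 0 with h | h
    · exact Or.inl h
    right
    have h1 := degree_modByMonic_lt f hm
    rw [degree_X_pow, degree_eq_natDegree h] at h1
    norm_cast at h1
    omega
  · rw [sub_neg_eq_add, add_comm]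
    exact modByMonic_add_div f _

/-- tiling: the intervals of lengths `ℓ c`, `c ∈ V`, tile `[0, ∑ ℓ)` -/
theorem tile {ι : Type*} [DecidableEq ι] (ℓ : ι → ℕ) (V : Finset ι) :
    ∃ k : ι → ℕ, (∀ c ∈ V, k c + ℓ c ≤ ∑ c ∈ V, ℓ c) ∧
      ∀ r ∈ degreeLT K (∑ c ∈ V, ℓ c), ∃ a : ι → K[X], (∀ c, a c ∈ degreeLT K (ℓ c)) ∧
        ∑ c ∈ V, a c * X ^ k c = r := by
  induction V using Finset.induction_on with
  | empty =>
    refine ⟨fun _ => 0, by simp, fun r hr => ⟨fun _ => 0, by simp, ?_⟩⟩
    rw [Finset.sum_empty, mem_degreeLT] at hr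
    by_contra h0
    rw [Finset.sum_empty] at h0
    rw [degree_eq_natDegree (Ne.symm h0)] at hr
    norm_cast at hr
  | insert v V hv ih =>
    obtain ⟨k, hk, hs⟩ := ih
    set T := ∑ c ∈ V, ℓ c with hT
    refine ⟨Function.update k v T, ?_, ?_⟩
    · intro c hc
      rw [Finset.sum_insert hv]
      rcases eq_or_ne c v with rfl | hcv
      · simp [add_comm, hT]
      · rw [Function.update_of_ne hcv]
        have := hk c ((Finset.mem_insert.1 hc).resolve_left hcv)
        omega
    · intro r hr
      rw [Finset.sum_insert hv] at hr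
      have hm : (X ^ T : K[X]).Monic := monic_X_pow T
      obtain ⟨a, ha, hsum⟩ := hs (r %ₘ X ^ T) (by
        rw [mem_degreeLT]
        have := degree_modByMonic_lt r hm
        rwa [degree_X_pow] at this)
      refine ⟨Function.update a v (r /ₘ X ^ T), ?_, ?_⟩
      · intro c
        rcases eq_or_ne c v with rfl | hcv
        · rw [Function.update_self]
          rw [mem_degreeLT] at hr ⊢
          rcases eq_or_ne (r /ₘ X ^ T) 0 with h | h
          · rw [h, degree_zero]; exact WithBot.bot_lt_coe _
          have hr0 : r ≠ 0 := by rintro rfl; simp at h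
          have h1 : T ≤ r.natDegree := by
            by_contra hlt
            apply h
            rw [divByMonic_eq_zero_iff hm, degree_X_pow, degree_eq_natDegree hr0]
            exact_mod_cast (by omega)
          rw [degree_eq_natDegree h, natDegree_divByMonic _ hm, natDegree_X_pow]
          rw [degree_eq_natDegree hr0] at hr
          norm_cast at hr ⊢
          omega
        · rw [Function.update_of_ne hcv]; exact ha c
      · rw [Finset.sum_insert hv]
        have : ∑ c ∈ V, Function.update a v (r /ₘ X ^ T) c * X ^ Function.update k v T c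
            = ∑ c ∈ V, a c * X ^ k c := by
          apply Finset.sum_congr rfl
          intro c hc
          have hcv : c ≠ v := fun h => hv (h ▸ hc)
          rw [Function.update_of_ne hcv, Function.update_of_ne hcv]
        rw [this, hsum, Function.update_self, Function.update_self, mul_comm, add_comm]
        exact modByMonic_add_div r _

variable {ι : Type*} [Fintype ι] [DecidableEq ι]

theorem cut {x y : ℕ} {r : K[X]} (hr : r ∈ degreeLT K (x + y)) :
    ∃ u ∈ degreeLT K y, ∃ v ∈ degreeLT K x, u * X ^ x + v = r := by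
  have hm : (X ^ x : K[X]).Monic := monic_X_pow x
  refine ⟨r /ₘ X ^ x, ?_, r %ₘ X ^ x, ?_, ?_⟩
  · rw [mem_degreeLT] at hr ⊢
    rcases eq_or_ne (r /ₘ X ^ x) 0 with h | h
    · rw [h, degree_zero]; exact WithBot.bot_lt_coe _
    have hr0 : r ≠ 0 := by rintro rfl; simp at h
    have h1 : x ≤ r.natDegree := by
      by_contra hlt
      apply h
      rw [divByMonic_eq_zero_iff hm, degree_X_pow, degree_eq_natDegree hr0]
      exact_mod_cast (by omega)
    rw [degree_eq_natDegree h, natDegree_divByMonic _ hm, natDegree_X_pow]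
    rw [degree_eq_natDegree hr0] at hr
    norm_cast at hr ⊢
    omega
  · rw [mem_degreeLT]
    have := degree_modByMonic_lt r hm
    rwa [degree_X_pow] at this
  · rw [mul_comm, add_comm]
    exact modByMonic_add_div r _

/-- the state of the construction: columns `s`, rows `J`, current size `d` -/
structure State (δ : ι → ℕ) (s J : Finset ι) (d : ℕ) (Φ σ : ι → ι → K[X]) (ℓ : ι → ℕ) :
    Prop where
  row : ∀ j i, Dg (Φ j i) (δ i + 1) (δ j)
  row0 : ∀ j i, i ∉ s → Φ j i = 0
  surj : ∀ t : ι → K[X], (∀ j, t j ∈ degreeLT K (δ j)) →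
    ∃ x : ι → K[X], (∀ i, x i ∈ degreeLT K (δ i + 1)) ∧ ∀ j ∈ J, ∑ i, Φ j i * x i = t j
  st : ∀ c i, Dg (σ c i) (ℓ c) (δ i + 1)
  st0 : ∀ c i, i ∉ s → σ c i = 0
  z : ∀ c, ℓ c = 0 → ∀ i, σ c i = 0
  ker : ∀ j ∈ J, ∀ c, ∑ i, Φ j i * σ c i = 0
  ep : ∀ D, d ≤ D → ∀ f : ι → K[X], (∀ c, Dg (f c) (ℓ c) D) → (∀ c, ℓ c = 0 → f c = 0) →
    ∃ φ : ι → K[X], (∀ i, Dg (φ i) (δ i + 1) D) ∧ (∀ i, i ∉ s → φ i = 0) ∧
      ∀ c, ∑ i, φ i * σ c i = f c
  len : ∀ c, ℓ c ≤ d
  len0 : ∀ c, c ∉ s → ℓ c = 0

theorem exists_minimal (ℓ : ι → ℕ) (d : ℕ) (h : d ≤ ∑ c, ℓ c) :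
    ∃ U : Finset ι, d ≤ ∑ c ∈ U, ℓ c ∧ ∀ p ∈ U, ∑ c ∈ U.erase p, ℓ c < d := by
  classical
  obtain ⟨U, hU, hmin⟩ := Finset.exists_min_image
    ((Finset.univ : Finset (Finset ι)).filter fun U => d ≤ ∑ c ∈ U, ℓ c) Finset.card
    ⟨Finset.univ, by simpa using h⟩
  simp only [Finset.mem_filter, Finset.mem_univ, true_and] at hU hmin
  refine ⟨U, hU, fun p hp => ?_⟩
  by_contra hlt
  have h1 := hmin _ (not_lt.1 hlt)
  have h2 := Finset.card_erase_lt_of_mem hp
  omega

variable {δ : ι → ℕ} {s J : Finset ι} {d : ℕ} {Φ σ : ι → ι → K[X]} {ℓ : ι → ℕ}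

theorem State.newRow (h : State δ s J d Φ σ ℓ) {j : ι} (hj : j ∉ J) (hd : δ j = d)
    (f : ι → K[X]) (hf : ∀ c, Dg (f c) (ℓ c) d) (hf0 : ∀ c, ℓ c = 0 → f c = 0)
    (hs : ∀ r ∈ degreeLT K d, ∃ a : ι → K[X], (∀ c, a c ∈ degreeLT K (ℓ c)) ∧
      ∑ c, a c * f c = r) :
    ∃ Φ' : ι → ι → K[X], (∀ j i, Dg (Φ' j i) (δ i + 1) (δ j)) ∧ (∀ j i, i ∉ s → Φ' j i = 0) ∧
      (∀ t : ι → K[X], (∀ j, t j ∈ degreeLT K (δ j)) →
        ∃ x : ι → K[X], (∀ i, x i ∈ degreeLT K (δ i + 1)) ∧
          ∀ k ∈ insert j J, ∑ i, Φ' k i * x i = t k) ∧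
      (∀ k ∈ J, Φ' k = Φ k) ∧ ∀ c, ∑ i, Φ' j i * σ c i = f c := by
  obtain ⟨φ, h1, h2, h3⟩ := h.ep d le_rfl f hf hf0
  have hne : ∀ k ∈ J, k ≠ j := fun k hk e => hj (e ▸ hk)
  refine ⟨Function.update Φ j φ, ?_, ?_, ?_, ?_, ?_⟩
  · intro k i
    rcases eq_or_ne k j with rfl | hk
    · rw [Function.update_self, hd]; exact h1 i
    · rw [Function.update_of_ne hk]; exact h.row k i
  · intro k i hi
    rcases eq_or_ne k j with rfl | hk
    · rw [Function.update_self]; exact h2 i hi
    · rw [Function.update_of_ne hk]; exact h.row0 k i hi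
  · intro t ht
    obtain ⟨x, hx, hx'⟩ := h.surj t ht
    have hr : t j - ∑ i, φ i * x i ∈ degreeLT K d := by
      apply Submodule.sub_mem
      · rw [← hd]; exact ht j
      · exact Submodule.sum_mem _ fun i _ => h1 i _ (hx i)
    obtain ⟨a, ha, ha'⟩ := hs _ hr
    refine ⟨fun i => x i + ∑ c, a c * σ c i, ?_, ?_⟩
    · intro i
      apply Submodule.add_mem _ (hx i)
      refine Submodule.sum_mem _ fun c _ => ?_
      rw [mul_comm]
      exact h.st c i _ (ha c)
    · have key : ∀ ψ : ι → K[X], ∑ i, ψ i * (x i + ∑ c, a c * σ c i)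
          = ∑ i, ψ i * x i + ∑ c, a c * ∑ i, ψ i * σ c i := by
        intro ψ
        simp only [mul_add, Finset.sum_add_distrib, Finset.mul_sum]
        congr 1
        rw [Finset.sum_comm]
        refine Finset.sum_congr rfl fun c _ => Finset.sum_congr rfl fun i _ => by ring
      intro k hk
      rcases Finset.mem_insert.1 hk with rfl | hk
      · rw [Function.update_self, key]
        simp only [h3, ha']
        ring
      · rw [Function.update_of_ne (hne k hk), key, hx' k hk]
        simp [h.ker k hk]
  · intro k hk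
    rw [Function.update_of_ne (hne k hk)]
  · intro c
    rw [Function.update_self]
    exact h3 c

theorem State.addRow (h : State δ s J d Φ σ ℓ) {j : ι} (hj : j ∉ J) (hd : δ j = d)
    (hsum : d ≤ ∑ c, ℓ c) :
    ∃ (Φ' σ' : ι → ι → K[X]) (ℓ' : ι → ℕ), State δ s (insert j J) d Φ' σ' ℓ' ∧
      ∑ c, ℓ c ≤ ∑ c, ℓ' c + d := by
  obtain ⟨U, hU, hmin⟩ := exists_minimal ℓ d hsum
  have herase : ∀ p ∈ U, ∑ c ∈ U.erase p, ℓ c + ℓ p = ∑ c ∈ U, ℓ c := fun p hp =>
    Finset.sum_erase_add _ _ hp
  have hsplit : ∑ c, ℓ c = ∑ c ∈ U, ℓ c + ∑ c ∈ Uᶜ, ℓ c := (Finset.sum_add_sum_compl U ℓ).symm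
  rcases Nat.eq_or_lt_of_le hU with he | he
  · -- exact tiling
    obtain ⟨k, hk, hk'⟩ := tile (K := K) ℓ U
    rw [← he] at hk hk'
    have hpos : ∀ c ∈ U, 0 < ℓ c := by
      intro c hc
      have h1 := hmin c hc
      have h2 := herase c hc
      omega
    obtain ⟨Φ', r1, r2, r3, r4, r5⟩ := h.newRow hj hd (fun c => if c ∈ U then X ^ k c else 0)
      (fun c => by
        by_cases hc : c ∈ U
        · simp only [if_pos hc]; exact Dg.X_pow (hk c hc)
        · simp only [if_neg hc]; exact Dg.zero _ _)
      (fun c hc => if_neg fun hcU => (hpos c hcU).ne' hc)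
      (fun r hr => by
        obtain ⟨a, ha, ha'⟩ := hk' r hr
        refine ⟨a, ha, ?_⟩
        rw [← ha']
        simp)
    refine ⟨Φ', fun c i => if c ∈ U then 0 else σ c i, fun c => if c ∈ U then 0 else ℓ c,
      ⟨r1, r2, r3, ?_, ?_, ?_, ?_, ?_, ?_, ?_⟩, ?_⟩
    · intro c i
      by_cases hc : c ∈ U
      · simp only [if_pos hc]; exact Dg.zero _ _
      · simp only [if_neg hc]; exact h.st c i
    · intro c i hi
      simp [h.st0 c i hi]
    · intro c hc i
      by_cases hcU : c ∈ U
      · simp [hcU]
      · simp only [if_neg hcU] at hc ⊢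
        exact h.z c hc i
    · intro k' hk' c
      by_cases hc : c ∈ U
      · simp [hc]
      · simp only [if_neg hc]
        rcases Finset.mem_insert.1 hk' with rfl | hk'
        · rw [r5]; simp [hc]
        · rw [r4 k' hk']; exact h.ker k' hk' c
    · intro D hD f hf hf0
      obtain ⟨φ, q1, q2, q3⟩ := h.ep D hD (fun c => if c ∈ U then 0 else f c) (fun c => by
          by_cases hc : c ∈ U
          · simp only [if_pos hc]; exact Dg.zero _ _
          · have := hf c
            simp only [if_neg hc] at this ⊢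
            exact this)
        (fun c hc => by
          by_cases hcU : c ∈ U
          · simp [hcU]
          · simp only [if_neg hcU]
            exact hf0 c (by simp [hcU, hc]))
      refine ⟨φ, q1, q2, fun c => ?_⟩
      by_cases hc : c ∈ U
      · simp only [if_pos hc, mul_zero, Finset.sum_const_zero]
        rw [hf0 c (by simp [hc])]
      · simp only [if_neg hc]
        rw [q3 c, if_neg hc]
    · intro c
      by_cases hc : c ∈ U
      · simp [hc]
      · simp only [if_neg hc]; exact h.len c
    · intro c hc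
      by_cases hcU : c ∈ U
      · simp [hcU]
      · simp only [if_neg hcU]; exact h.len0 c hc
    · have : ∑ c, (if c ∈ U then 0 else ℓ c) = ∑ c ∈ Uᶜ, ℓ c := by
        rw [← Finset.sum_filter_add_sum_filter_not Finset.univ (· ∈ U)]
        rw [Finset.sum_eq_zero (s := Finset.univ.filter (· ∈ U)) (by
          intro c hc; simp at hc; simp [hc]), zero_add]
        apply Finset.sum_congr
        · ext c; simp
        · intro c hc
          simp at hc
          simp [hc]
      rw [this, hsplit, ← he]
      omega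
  · -- overlapping tiling
    set e := ∑ c ∈ U, ℓ c - d with hedef
    have he' : ∑ c ∈ U, ℓ c = d + e := by omega
    have he0 : 0 < e := by omega
    have hbig : ∀ c ∈ U, e < ℓ c := by
      intro c hc
      have h1 := hmin c hc
      have h2 := herase c hc
      omega
    have hne : U.Nonempty := by
      by_contra hemp
      rw [Finset.not_nonempty_iff_eq_empty] at hemp
      rw [hemp] at he
      simp at he
    obtain ⟨p, hp⟩ := hne
    have hne2 : (U.erase p).Nonempty := by
      by_contra hemp
      rw [Finset.not_nonempty_iff_eq_empty] at hemp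
      have h2 := herase p hp
      rw [hemp] at h2
      have h3 := h.len p
      simp at h2
      omega
    obtain ⟨q, hq⟩ := hne2
    have hqp : q ≠ p := Finset.ne_of_mem_erase hq
    have hqU : q ∈ U := Finset.mem_of_mem_erase hq
    have hV : ∑ c ∈ (U.erase p).erase q, ℓ c + ℓ q = ∑ c ∈ U.erase p, ℓ c :=
      Finset.sum_erase_add _ _ hq
    obtain ⟨k, hk, hk'⟩ := tile (K := K) ℓ ((U.erase p).erase q)
    set V := (U.erase p).erase q with hVdef
    set T := ∑ c ∈ V, ℓ c with hT
    have hpe := herase p hp
    have hlp := h.len p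
    have hep := hbig p hp
    have heq := hbig q hqU
    have hTd : T + ℓ q + ℓ p = d + e := by omega
    have hVp : p ∉ V := by simp [hVdef]
    have hVq : q ∉ V := by simp [hVdef]
    have hVU : ∀ c ∈ V, c ∈ U := fun c hc =>
      Finset.mem_of_mem_erase (Finset.mem_of_mem_erase hc)
    have hUV : ∀ c ∈ U, c ≠ p → c ≠ q → c ∈ V := fun c hc h1 h2 =>
      Finset.mem_erase.2 ⟨h2, Finset.mem_erase.2 ⟨h1, hc⟩⟩
    set f : ι → K[X] := fun c => if c = p then X ^ (d - ℓ p) else if c = q then X ^ T else
      if c ∈ V then X ^ k c else 0 with hf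
    have fp : f p = X ^ (d - ℓ p) := by simp [hf]
    have fq : f q = X ^ T := by simp [hf, hqp]
    have fV : ∀ c ∈ V, f c = X ^ k c := by
      intro c hc
      have h1 : c ≠ p := fun h => hVp (h ▸ hc)
      have h2 : c ≠ q := fun h => hVq (h ▸ hc)
      simp [hf, h1, h2, hc]
    have f0 : ∀ c, c ∉ U → f c = 0 := by
      intro c hc
      have h1 : c ≠ p := fun h => hc (h ▸ hp)
      have h2 : c ≠ q := fun h => hc (h ▸ hqU)
      have h3 : c ∉ V := fun h => hc (hVU c h)
      simp [hf, h1, h2, h3]
    have cases : ∀ c, c = p ∨ c = q ∨ c ∈ V ∨ c ∉ U := by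
      intro c
      by_cases h1 : c = p
      · exact Or.inl h1
      by_cases h2 : c = q
      · exact Or.inr (Or.inl h2)
      by_cases h3 : c ∈ U
      · exact Or.inr (Or.inr (Or.inl (hUV c h3 h1 h2)))
      · exact Or.inr (Or.inr (Or.inr h3))
    obtain ⟨Φ', r1, r2, r3, r4, r5⟩ := h.newRow hj hd f
      (fun c => by
        rcases cases c with rfl | rfl | hc | hc
        · rw [fp]; exact Dg.X_pow (by omega)
        · rw [fq]; exact Dg.X_pow (by omega)
        · rw [fV c hc]; exact Dg.X_pow (by have := hk c hc; omega)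
        · rw [f0 c hc]; exact Dg.zero _ _)
      (fun c hc => f0 c fun hcU => by have := hbig c hcU; omega)
      (fun r hr => by
        obtain ⟨u, hu, v, hv, huv⟩ := cut (x := d - ℓ p) (y := ℓ p) (r := r) (by
          rwa [Nat.sub_add_cancel hlp])
        obtain ⟨u', hu', v', hv', huv'⟩ := cut (x := T) (y := ℓ q) (r := v)
          (degreeLT_mono' (by omega) hv)
        obtain ⟨a, ha, ha'⟩ := hk' v' hv'
        refine ⟨fun c => if c = p then u else if c = q then u' else if c ∈ V then a c else 0,
          ?_, ?_⟩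
        · intro c
          try dsimp only
          split_ifs with h1 h2 h3
          · rw [h1]; exact hu
          · rw [h2]; exact hu'
          · exact ha c
          · exact Submodule.zero_mem _
        · rw [← Finset.sum_subset (Finset.subset_univ U) (by
            intro c _ hc; rw [f0 c hc, mul_zero]),
            ← Finset.sum_erase_add _ _ hp, ← Finset.sum_erase_add _ _ hq, ← hVdef]
          beta_reduce
          rw [fp, fq, if_pos rfl, if_neg hqp, if_pos rfl]
          have : ∑ c ∈ V, (if c = p then u else if c = q then u' else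
              if c ∈ V then a c else 0) * f c = v' := by
            rw [← ha']
            refine Finset.sum_congr rfl fun c hc => ?_
            have h1 : c ≠ p := fun h => hVp (h ▸ hc)
            have h2 : c ≠ q := fun h => hVq (h ▸ hc)
            rw [fV c hc, if_neg h1, if_neg h2, if_pos hc]
          rw [this, ← huv, ← huv']
          ring)
    set m := ℓ q - e with hm
    have hme : m + e = ℓ q := by omega
    refine ⟨Φ', fun c i => if c = p then X ^ m * σ q i - σ p i else if c ∈ U then 0 else σ c i,
      fun c => if c = p then e else if c ∈ U then 0 else ℓ c,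
      ⟨r1, r2, r3, ?_, ?_, ?_, ?_, ?_, ?_, ?_⟩, ?_⟩
    · intro c i
      try dsimp only
      split_ifs with h1 h2
      · apply Dg.sub
        · rw [mul_comm]
          exact (h.st q i).comp (Dg.X_pow (by omega))
        · exact (h.st p i).mono (by omega) le_rfl
      · exact Dg.zero _ _
      · exact h.st c i
    · intro c i hi
      simp [h.st0 _ i hi]
    · intro c hc i
      try dsimp only at hc ⊢
      split_ifs at hc ⊢ with h1 h2
      · omega
      · rfl
      · exact h.z c hc i
    · intro k' hk' c
      try dsimp only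
      have hh : ∀ c, ∑ i, Φ' k' i * σ c i = if k' ∈ J then 0 else f c := by
        intro c
        rcases Finset.mem_insert.1 hk' with rfl | hk'
        · rw [r5, if_neg hj]
        · rw [r4 k' hk', if_pos hk']; exact h.ker k' hk' c
      split_ifs with h1 h2
      · have : ∑ i, Φ' k' i * (X ^ m * σ q i - σ p i)
            = X ^ m * ∑ i, Φ' k' i * σ q i - ∑ i, Φ' k' i * σ p i := by
          rw [Finset.mul_sum, ← Finset.sum_sub_distrib]
          refine Finset.sum_congr rfl fun i _ => by ring
        rw [this, hh, hh]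
        split_ifs
        · simp
        · rw [fp, fq, ← pow_add]
          have : m + T = d - ℓ p := by omega
          rw [this, sub_self]
      · simp
      · rw [hh]
        split_ifs
        · rfl
        · exact f0 c h2
    · intro D hD F hF hF0
      have hFp : Dg (F p) e D := by simpa using hF p
      obtain ⟨g, g', hg, hg', hgg⟩ := split (m := m) (p := ℓ p) he0 hFp (by omega)
      rw [hme] at hg
      obtain ⟨φ, q1, q2, q3⟩ := h.ep D hD (fun c => if c = p then g' else if c = q then g else
        if c ∈ U then 0 else F c) (fun c => by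
          try dsimp only
          split_ifs with h1 h2 h3
          · rw [h1]; exact hg'
          · rw [h2]; exact hg
          · exact Dg.zero _ _
          · have := hF c
            simp only [if_neg h1, if_neg h3] at this
            exact this)
        (fun c hc => by
          try dsimp only
          split_ifs with h1 h2 h3
          · exfalso; rw [h1] at hc; omega
          · exfalso; rw [h2] at hc; omega
          · rfl
          · exact hF0 c (by simp [h1, h3, hc]))
      refine ⟨φ, q1, q2, fun c => ?_⟩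
      try dsimp only
      split_ifs with h1 h2
      · have : ∑ i, φ i * (X ^ m * σ q i - σ p i)
            = X ^ m * ∑ i, φ i * σ q i - ∑ i, φ i * σ p i := by
          rw [Finset.mul_sum, ← Finset.sum_sub_distrib]
          refine Finset.sum_congr rfl fun i _ => by ring
        rw [this, q3, q3, if_pos rfl, if_neg hqp, if_pos rfl, hgg, h1]
      · rw [hF0 c (by simp [h1, h2])]
        simp
      · rw [q3, if_neg h1, if_neg h2]
        split_ifs with h3
        · exact absurd (h3 ▸ hqU) h2
        · rfl
    · intro c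
      try dsimp only
      split_ifs with h1 h2
      · omega
      · omega
      · exact h.len c
    · intro c hc
      try dsimp only
      split_ifs with h1 h2
      · rw [h1] at hc
        have := h.len0 p hc
        omega
      · rfl
      · exact h.len0 c hc
    · have : ∑ c, (if c = p then e else if c ∈ U then 0 else ℓ c) = e + ∑ c ∈ Uᶜ, ℓ c := by
        rw [← Finset.sum_add_sum_compl U, ← Finset.sum_erase_add _ _ hp, if_pos rfl]
        rw [Finset.sum_eq_zero (s := U.erase p) (by
          intro c hc
          have h1 := Finset.ne_of_mem_erase hc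
          have h2 := Finset.mem_of_mem_erase hc
          simp [h1, h2]), zero_add]
        congr 1
        refine Finset.sum_congr rfl fun c hc => ?_
        have h1 : c ∉ U := by simpa using hc
        have h2 : c ≠ p := fun h => h1 (h ▸ hp)
        simp [h1, h2]
      rw [this, hsplit, he']
      omega

theorem State.promote (F : Finset ι) (hF : ∀ c, c ∈ F ↔ δ c = d) (hsF : ∀ c ∈ F, c ∉ s)
    (h : State δ s (F ∪ s) d Φ σ ℓ) :
    State δ (F ∪ s) (F ∪ s) (d + 1) Φ (fun c i => if c ∈ F then (if i = c then 1 else 0) else σ c i)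
      (fun c => if c ∈ F then d + 1 else ℓ c) := by
  refine ⟨h.row, ?_, h.surj, ?_, ?_, ?_, ?_, ?_, ?_, ?_⟩
  · intro j i hi
    exact h.row0 j i fun his => hi (Finset.mem_union_right _ his)
  · intro c i
    split_ifs with h1 h2
    · rw [h2, (hF c).1 h1]
      exact Dg.of_degree (Or.inr (by simp))
    · exact Dg.zero _ _
    · exact h.st c i
  · intro c i hi
    split_ifs with h1 h2
    · exact absurd (Finset.mem_union_left _ (h2 ▸ h1)) hi
    · rfl
    · exact h.st0 c i fun his => hi (Finset.mem_union_right _ his)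
  · intro c hc i
    split_ifs at hc ⊢ with h1
    exact h.z c hc i
  · intro j hj c
    split_ifs with h1
    · simp only [mul_ite, mul_one, mul_zero, Finset.sum_ite_eq', Finset.mem_univ, if_true]
      exact h.row0 j c (hsF c h1)
    · exact h.ker j hj c
  · intro D hD f hf hf0
    obtain ⟨φ, q1, q2, q3⟩ := h.ep D (by omega) (fun c => if c ∈ F then 0 else f c) (fun c => by
        split_ifs with h1
        · exact Dg.zero _ _
        · have := hf c
          simp only [if_neg h1] at this
          exact this)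
      (fun c hc => by
        split_ifs with h1
        · rfl
        · exact hf0 c (by simp [h1, hc]))
    refine ⟨fun i => if i ∈ F then f i else φ i, ?_, ?_, ?_⟩
    · intro i
      beta_reduce
      split_ifs with h1
      · have := hf i
        simp only [if_pos h1] at this
        rw [(hF i).1 h1]
        exact this
      · exact q1 i
    · intro i hi
      beta_reduce
      rw [if_neg fun h => hi (Finset.mem_union_left _ h)]
      exact q2 i fun h => hi (Finset.mem_union_right _ h)
    · intro c
      split_ifs with h1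
      · simp only [mul_ite, mul_one, mul_zero, Finset.sum_ite_eq', Finset.mem_univ, if_true]
        rw [if_pos h1]
      · have := q3 c
        rw [if_neg h1] at this
        rw [← this]
        refine Finset.sum_congr rfl fun i _ => ?_
        beta_reduce
        split_ifs with h2
        · rw [h.st0 c i (hsF i h2), mul_zero, mul_zero]
        · rfl
  · intro c
    split_ifs with h1
    · exact le_rfl
    · exact (h.len c).trans (Nat.le_succ d)
  · intro c hc
    rw [if_neg fun h => hc (Finset.mem_union_left _ h)]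
    exact h.len0 c fun h => hc (Finset.mem_union_right _ h)

theorem exists_state (δ : ι → ℕ)
    (h : ∀ d, d * (Finset.univ.filter fun i => δ i = d).card
      ≤ (Finset.univ.filter fun i => δ i < d).card) (d : ℕ) :
    ∃ (Φ σ : ι → ι → K[X]) (ℓ : ι → ℕ),
      State δ (Finset.univ.filter fun i => δ i < d) (Finset.univ.filter fun i => δ i < d) d Φ σ ℓ ∧
      (Finset.univ.filter fun i => δ i < d).card ≤ ∑ c, ℓ c := by
  induction d with
  | zero =>
    have he : (Finset.univ.filter fun i => δ i < 0) = ∅ := by simp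
    rw [he]
    refine ⟨0, 0, 0, ⟨?_, ?_, ?_, ?_, ?_, ?_, ?_, ?_, ?_, ?_⟩, by simp⟩
    · intro j i; exact Dg.zero _ _
    · intros; rfl
    · intro t _
      exact ⟨0, fun i => Submodule.zero_mem _, by simp⟩
    · intro j i; exact Dg.zero _ _
    · intros; rfl
    · intros; rfl
    · intro j hj; simp at hj
    · intro D _ f _ hf0
      refine ⟨0, fun i => Dg.zero _ _, fun i _ => rfl, fun c => ?_⟩
      rw [hf0 c rfl]
      simp
    · intro c; exact le_rfl
    · intros; rfl
  | succ d ih =>
    obtain ⟨Φ₀, σ₀, ℓ₀, h₀, hs₀⟩ := ih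
    set s := Finset.univ.filter fun i => δ i < d with hs
    set F := Finset.univ.filter fun i => δ i = d with hF
    have hsF : ∀ c ∈ F, c ∉ s := by
      intro c hc
      simp only [hF, hs, Finset.mem_filter, Finset.mem_univ, true_and] at hc ⊢
      omega
    have key : ∀ t : Finset ι, t ⊆ F → ∃ (Φ σ : ι → ι → K[X]) (ℓ : ι → ℕ),
        State δ s (t ∪ s) d Φ σ ℓ ∧ s.card ≤ ∑ c, ℓ c + d * t.card := by
      intro t
      induction t using Finset.induction_on with
      | empty =>
        intro _
        rw [Finset.empty_union]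
        exact ⟨Φ₀, σ₀, ℓ₀, h₀, by simpa using hs₀⟩
      | insert j t hj iht =>
        intro hsub
        obtain ⟨Φ, σ, ℓ, h1, h2⟩ := iht ((Finset.subset_insert _ _).trans hsub)
        have hjF : j ∈ F := hsub (Finset.mem_insert_self _ _)
        have hjd : δ j = d := by simpa [hF] using hjF
        have hjn : j ∉ t ∪ s := by
          rw [Finset.mem_union, not_or]
          exact ⟨hj, hsF j hjF⟩
        have hcard := Finset.card_le_card hsub
        rw [Finset.card_insert_of_notMem hj] at hcard
        have hd' : d * F.card ≤ s.card := h d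
        have hmul : d * (t.card + 1) ≤ d * F.card := Nat.mul_le_mul_left d hcard
        obtain ⟨Φ', σ', ℓ', h3, h4⟩ := h1.addRow hjn hjd (by
          have : d * (t.card + 1) = d * t.card + d := by ring
          omega)
        rw [Finset.insert_union]
        refine ⟨Φ', σ', ℓ', h3, ?_⟩
        rw [Finset.card_insert_of_notMem hj]
        have : d * (t.card + 1) = d * t.card + d := by ring
        omega
    obtain ⟨Φ, σ, ℓ, h1, h2⟩ := key F subset_rfl
    have hU : (Finset.univ.filter fun i => δ i < d + 1) = F ∪ s := by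
      ext c
      simp only [hF, hs, Finset.mem_filter, Finset.mem_univ, true_and, Finset.mem_union]
      omega
    rw [hU]
    refine ⟨_, _, _, h1.promote F (fun c => by simp [hF]) hsF, ?_⟩
    have hdis : Disjoint F s := Finset.disjoint_left.2 hsF
    rw [Finset.card_union_of_disjoint hdis]
    have : ∑ c, (if c ∈ F then d + 1 else ℓ c) = (d + 1) * F.card + ∑ c, ℓ c := by
      have e1 : ∑ c, ℓ c = ∑ c, (if c ∈ F then 0 else ℓ c) := by
        refine Finset.sum_congr rfl fun c _ => ?_
        split_ifs with hc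
        · exact h1.len0 c (hsF c hc)
        · rfl
      have e2 : (d + 1) * F.card = ∑ c, (if c ∈ F then d + 1 else 0) := by
        rw [← Finset.sum_filter, Finset.filter_mem_eq_inter, Finset.univ_inter,
          Finset.sum_const, smul_eq_mul, mul_comm]
      rw [e1, e2, ← Finset.sum_add_distrib]
      refine Finset.sum_congr rfl fun c _ => ?_
      split_ifs <;> simp
    rw [this]
    have : (d + 1) * F.card = d * F.card + F.card := by ring
    omega

/-- the surjective polynomial Toeplitz map -/
theorem exists_toeplitz (δ : ι → ℕ)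
    (h : ∀ d, d * (Finset.univ.filter fun i => δ i = d).card
      ≤ (Finset.univ.filter fun i => δ i < d).card) :
    ∃ Φ : ι → ι → K[X], (∀ j i, Dg (Φ j i) (δ i + 1) (δ j)) ∧
      ∀ t : ι → K[X], (∀ j, t j ∈ degreeLT K (δ j)) →
        ∃ x : ι → K[X], (∀ i, x i ∈ degreeLT K (δ i + 1)) ∧ ∀ j, ∑ i, Φ j i * x i = t j := by
  obtain ⟨Φ, σ, ℓ, h1, -⟩ := exists_state (K := K) δ h (∑ i, δ i + 1)
  refine ⟨Φ, h1.row, fun t ht => ?_⟩
  obtain ⟨x, hx, hx'⟩ := h1.surj t ht
  refine ⟨x, hx, fun j => hx' j ?_⟩
  simp only [Finset.mem_filter, Finset.mem_univ, true_and]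
  exact Nat.lt_succ_of_le (Finset.single_le_sum (f := δ) (fun i _ => Nat.zero_le _)
    (Finset.mem_univ j))

end Pool.Agent.Q6.PencilSticks
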