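import Mathlib
import Pool.Agent.Q6.PencilSticks

/-!
# Invertible `E` with `A E B = B E A` for the singular blocks of a square pencil
-/

open Polynomial Matrix

namespace Pool.Agent.Q6.PencilMatrix

open Pool.Agent.Q6.PencilSticks

variable {K : Type*} [Field K]
variable {ι κ : Type} [Fintype ι] [DecidableEq ι] [Fintype κ] [DecidableEq κ]

variable (K) in
/-- the coefficient of `1` of the blocks `L_{ε c}` -/
def LA (ε : κ → ℕ) : Matrix (Σ c, Fin (ε c)) (Σ c, Fin (ε c + 1)) K :=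
  fun r s => if r.1 = s.1 ∧ s.2.val = r.2.val + 1 then 1 else 0

variable (K) in
/-- the coefficient of `λ` of the blocks `L_{ε c}` -/
def LB (ε : κ → ℕ) : Matrix (Σ c, Fin (ε c)) (Σ c, Fin (ε c + 1)) K :=
  fun r s => if r.1 = s.1 ∧ s.2.val = r.2.val then 1 else 0

variable {Z : Type*}

theorem LA_mul (ε : κ → ℕ) (M : Matrix (Σ c, Fin (ε c + 1)) Z K) (c : κ) (b : Fin (ε c)) (z : Z) :
    (LA K ε * M) ⟨c, b⟩ z = M ⟨c, b.succ⟩ z := by
  rw [Matrix.mul_apply, Finset.sum_eq_single ⟨c, b.succ⟩]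
  · simp [LA]
  · rintro ⟨c', b'⟩ _ hne
    have : ¬ (c = c' ∧ b'.val = b.val + 1) := by
      rintro ⟨rfl, h⟩
      exact hne (by congr 1; exact Fin.ext (by simpa using h))
    simp [LA, this]
  · simp

theorem LB_mul (ε : κ → ℕ) (M : Matrix (Σ c, Fin (ε c + 1)) Z K) (c : κ) (b : Fin (ε c)) (z : Z) :
    (LB K ε * M) ⟨c, b⟩ z = M ⟨c, b.castSucc⟩ z := by
  rw [Matrix.mul_apply, Finset.sum_eq_single ⟨c, b.castSucc⟩]
  · simp [LB]
  · rintro ⟨c', b'⟩ _ hne
    have : ¬ (c = c' ∧ b'.val = b.val) := by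
      rintro ⟨rfl, h⟩
      exact hne (by congr 1; exact Fin.ext (by simpa using h))
    simp [LB, this]
  · simp

theorem LAt_mul (ε : κ → ℕ) (M : Matrix (Σ c, Fin (ε c)) Z K) (c : κ) (b : Fin (ε c + 1)) (z : Z) :
    ((LA K ε)ᵀ * M) ⟨c, b⟩ z = if h : 0 < b.val then M ⟨c, ⟨b.val - 1, by omega⟩⟩ z else 0 := by
  rw [Matrix.mul_apply]
  split_ifs with h
  · rw [Finset.sum_eq_single ⟨c, ⟨b.val - 1, by omega⟩⟩]
    · have : b.val = b.val - 1 + 1 := by omega
      simp [LA, ← this]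
    · rintro ⟨c', b'⟩ _ hne
      have : ¬ (c' = c ∧ b.val = b'.val + 1) := by
        rintro ⟨rfl, h⟩
        exact hne (by congr 1; exact Fin.ext (by simp; omega))
      simp [LA, this]
    · simp
  · apply Finset.sum_eq_zero
    rintro ⟨c', b'⟩ _
    have : ¬ (c' = c ∧ b.val = b'.val + 1) := by
      rintro ⟨rfl, h⟩
      omega
    simp [LA, this]

theorem LBt_mul (ε : κ → ℕ) (M : Matrix (Σ c, Fin (ε c)) Z K) (c : κ) (b : Fin (ε c + 1)) (z : Z) :
    ((LB K ε)ᵀ * M) ⟨c, b⟩ z = if h : b.val < ε c then M ⟨c, ⟨b.val, h⟩⟩ z else 0 := by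
  rw [Matrix.mul_apply]
  split_ifs with h
  · rw [Finset.sum_eq_single ⟨c, ⟨b.val, h⟩⟩]
    · simp [LB]
    · rintro ⟨c', b'⟩ _ hne
      have : ¬ (c' = c ∧ b.val = b'.val) := by
        rintro ⟨rfl, h⟩
        exact hne (by congr 1; exact Fin.ext (by simp; omega))
      simp [LB, this]
    · simp
  · apply Finset.sum_eq_zero
    rintro ⟨c', b'⟩ _
    have : ¬ (c' = c ∧ b.val = b'.val) := by
      rintro ⟨rfl, h⟩
      omega
    simp [LB, this]

theorem mul_LAt (ε : κ → ℕ) (M : Matrix Z (Σ c, Fin (ε c + 1)) K) (c : κ) (b : Fin (ε c)) (z : Z) :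
    (M * (LA K ε)ᵀ) z ⟨c, b⟩ = M z ⟨c, b.succ⟩ := by
  have := LA_mul ε Mᵀ c b z
  rw [← Matrix.transpose_transpose (LA K ε), ← Matrix.transpose_mul] at this
  simpa using this

theorem mul_LBt (ε : κ → ℕ) (M : Matrix Z (Σ c, Fin (ε c + 1)) K) (c : κ) (b : Fin (ε c)) (z : Z) :
    (M * (LB K ε)ᵀ) z ⟨c, b⟩ = M z ⟨c, b.castSucc⟩ := by
  have := LB_mul ε Mᵀ c b z
  rw [← Matrix.transpose_transpose (LB K ε), ← Matrix.transpose_mul] at this
  simpa using this

/-- the Toeplitz matrix of a matrix of polynomials -/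
noncomputable def Tp (δ : ι → ℕ) (Φ : ι → ι → K[X]) : Matrix (Σ i, Fin (δ i)) (Σ i, Fin (δ i + 1)) K :=
  fun r s => (Φ r.1 s.1 * X ^ s.2.val).coeff r.2.val

theorem Tp_comm (δ : ι → ℕ) (Φ : ι → ι → K[X]) (h : ∀ j i, Dg (Φ j i) (δ i + 1) (δ j)) :
    (LA K δ)ᵀ * Tp δ Φ * (LB K δ)ᵀ = (LB K δ)ᵀ * Tp δ Φ * (LA K δ)ᵀ := by
  ext ⟨j, a⟩ ⟨i, b⟩
  rw [mul_LAt, mul_LBt, LAt_mul, LBt_mul]
  have hs : ∀ n : ℕ, (Φ j i * X ^ (b.val + 1)).coeff (n + 1) = (Φ j i * X ^ b.val).coeff n := by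
    intro n
    rw [pow_succ, ← mul_assoc, coeff_mul_X]
  split_ifs with h1 h2 h2
  · simp only [Tp, Fin.val_castSucc, Fin.val_succ]
    obtain ⟨n, hn⟩ : ∃ n, a.val = n + 1 := ⟨a.val - 1, by omega⟩
    rw [hn, hs, Nat.add_sub_cancel]
  · simp only [Tp, Fin.val_castSucc]
    obtain ⟨n, hn⟩ : ∃ n, a.val = n + 1 := ⟨a.val - 1, by omega⟩
    have h3 : a.val = δ j := by have := a.isLt; omega
    rw [hn, Nat.add_sub_cancel, ← hs, ← hn, h3]
    have h4 := h j i (X ^ (b.val + 1)) (by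
      rw [mem_degreeLT, degree_X_pow]
      have := b.isLt
      exact_mod_cast (by omega : b.val + 1 < δ i + 1))
    rw [mem_degreeLT] at h4
    exact coeff_eq_zero_of_degree_lt h4
  · simp only [Tp, Fin.val_succ]
    have : a.val = 0 := by omega
    rw [this, pow_succ, ← mul_assoc, coeff_mul_X_zero]
  · rfl

omit [DecidableEq ι] in
theorem Tp_surj (δ : ι → ℕ) (Φ : ι → ι → K[X])
    (h : ∀ t : ι → K[X], (∀ j, t j ∈ degreeLT K (δ j)) →
        ∃ x : ι → K[X], (∀ i, x i ∈ degreeLT K (δ i + 1)) ∧ ∀ j, ∑ i, Φ j i * x i = t j)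
    (v : (Σ i, Fin (δ i)) → K) : ∃ x, Tp δ Φ *ᵥ x = v := by
  obtain ⟨x, hx, hx'⟩ := h (fun j => ∑ a : Fin (δ j), C (v ⟨j, a⟩) * X ^ a.val) (fun j =>
    Submodule.sum_mem _ fun a _ => by
      rw [mem_degreeLT]
      refine (degree_C_mul_X_pow_le _ _).trans_lt ?_
      exact_mod_cast a.isLt)
  refine ⟨fun s => (x s.1).coeff s.2.val, ?_⟩
  ext ⟨j, a⟩
  have h1 : (∑ i, Φ j i * x i).coeff a.val = v ⟨j, a⟩ := by
    rw [hx', finsetSum_coeff, Finset.sum_eq_single a]
    · simp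
    · intro b _ hb
      rw [coeff_C_mul_X_pow, if_neg fun h => hb (Fin.ext h.symm)]
    · simp
  rw [← h1, Matrix.mulVec, dotProduct, Fintype.sum_sigma, finsetSum_coeff]
  refine Finset.sum_congr rfl fun i _ => ?_
  have h2 : x i = ∑ b : Fin (δ i + 1), C ((x i).coeff b.val) * X ^ b.val := by
    have h3 : (x i).natDegree < δ i + 1 := by
      rcases eq_or_ne (x i) 0 with h0 | h0
      · rw [h0]; simp
      have := hx i
      rw [mem_degreeLT, degree_eq_natDegree h0] at this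
      exact_mod_cast this
    conv_lhs => rw [as_sum_range' (x i) (δ i + 1) h3]
    rw [Finset.sum_range]
    simp [C_mul_X_pow_eq_monomial]
  conv_rhs => rw [h2]
  rw [Finset.mul_sum, finsetSum_coeff]
  refine Finset.sum_congr rfl fun b _ => ?_
  simp only [Tp]
  rw [mul_comm (C _) _, ← mul_assoc, coeff_mul_C]

theorem left_of_surj {m n : Type*} [Fintype m] [Fintype n] [DecidableEq m] (M : Matrix m n K)
    (h : ∀ v, ∃ x, M *ᵥ x = v) (u : m → K) (hu : u ᵥ* M = 0) : u = 0 := by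
  ext i
  obtain ⟨x, hx⟩ := h (Pi.single i 1)
  have h1 : u ⬝ᵥ (M *ᵥ x) = 0 := by rw [dotProduct_mulVec, hu, zero_dotProduct]
  rw [hx] at h1
  simpa using h1

/-- the Hankel matrix -/
def Hk (δ : ι → ℕ) (ε : κ → ℕ) (h : κ → ι → ℕ → K) :
    Matrix (Σ c, Fin (ε c + 1)) (Σ i, Fin (δ i + 1)) K :=
  fun r s => h r.1 s.1 (r.2.val + s.2.val)

theorem Hk_comm (δ : ι → ℕ) (ε : κ → ℕ) (h : κ → ι → ℕ → K) :
    LA K ε * Hk δ ε h * (LB K δ)ᵀ = LB K ε * Hk δ ε h * (LA K δ)ᵀ := by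
  ext ⟨c, b⟩ ⟨i, a⟩
  rw [mul_LAt, mul_LBt, LA_mul, LB_mul]
  simp only [Hk, Fin.val_succ, Fin.val_castSucc]
  congr 1
  omega

/-- the matrix `E` -/
noncomputable def Em (δ : ι → ℕ) (ε : κ → ℕ) (Φ : ι → ι → K[X]) (Ψ : κ → κ → K[X]) (h : κ → ι → ℕ → K) :
    Matrix ((Σ i, Fin (δ i)) ⊕ (Σ c, Fin (ε c + 1))) ((Σ i, Fin (δ i + 1)) ⊕ (Σ c, Fin (ε c))) K :=
  fromBlocks (Tp δ Φ) 0 (Hk δ ε h) (Tp ε Ψ)ᵀ

theorem Em_comm (δ : ι → ℕ) (ε : κ → ℕ) (Φ : ι → ι → K[X]) (Ψ : κ → κ → K[X])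
    (h : κ → ι → ℕ → K) (h1 : ∀ j i, Dg (Φ j i) (δ i + 1) (δ j))
    (h2 : ∀ j i, Dg (Ψ j i) (ε i + 1) (ε j)) :
    fromBlocks (LA K δ)ᵀ 0 0 (LA K ε) * Em δ ε Φ Ψ h * fromBlocks (LB K δ)ᵀ 0 0 (LB K ε)
      = fromBlocks (LB K δ)ᵀ 0 0 (LB K ε) * Em δ ε Φ Ψ h * fromBlocks (LA K δ)ᵀ 0 0 (LA K ε) := by
  have h3 := congrArg Matrix.transpose (Tp_comm ε Ψ h2)
  simp only [Matrix.transpose_mul, Matrix.transpose_transpose, ← Matrix.mul_assoc] at h3
  simp only [Em, fromBlocks_multiply, Matrix.zero_mul, Matrix.mul_zero, add_zero, zero_add,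
    Tp_comm δ Φ h1, Hk_comm, h3]

theorem exists_hankel [Infinite K] (δ : ι → ℕ) (ε : κ → ℕ) (Φ : ι → ι → K[X]) (Ψ : κ → κ → K[X])
    (e : ((Σ i, Fin (δ i + 1)) ⊕ (Σ c, Fin (ε c))) ≃ ((Σ i, Fin (δ i)) ⊕ (Σ c, Fin (ε c + 1))))
    (h1 : ∀ u, u ᵥ* Tp δ Φ = 0 → u = 0) (h2 : ∀ u, u ᵥ* Tp ε Ψ = 0 → u = 0) :
    ∃ h : κ → ι → ℕ → K, ∀ v, Em δ ε Φ Ψ h *ᵥ v = 0 → v = 0 := by
  suffices H : ∀ n : ℕ, ∀ h : κ → ι → ℕ → K,
      Module.finrank K (LinearMap.ker (Em δ ε Φ Ψ h).mulVecLin) = n →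
      ∃ h : κ → ι → ℕ → K, ∀ v, Em δ ε Φ Ψ h *ᵥ v = 0 → v = 0 from H _ 0 rfl
  intro n
  induction n using Nat.strong_induction_on with
  | _ n ih =>
    intro h hn
    by_cases hinj : ∀ v, Em δ ε Φ Ψ h *ᵥ v = 0 → v = 0
    · exact ⟨h, hinj⟩
    push Not at hinj
    obtain ⟨v, hv, hv0⟩ := hinj
    -- a vector in the left kernel
    obtain ⟨u, hu0, hu⟩ : ∃ u, u ≠ 0 ∧ u ᵥ* Em δ ε Φ Ψ h = 0 := by
      have hdet : ((Em δ ε Φ Ψ h).submatrix id e.symm).det = 0 := by
        rw [← Matrix.exists_mulVec_eq_zero_iff]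
        refine ⟨v ∘ e.symm, ?_, ?_⟩
        · intro h0
          apply hv0
          ext r
          have := congrFun h0 (e r)
          simpa using this
        · have := Matrix.submatrix_mulVec_equiv (Em δ ε Φ Ψ h) (v ∘ e.symm) id e.symm
          rw [this]
          have h3 : (v ∘ e.symm) ∘ e.symm.symm = v := by ext r; simp
          rw [h3, hv]
          rfl
      obtain ⟨u, hu0, hu⟩ := Matrix.exists_vecMul_eq_zero_iff.2 hdet
      refine ⟨u, hu0, ?_⟩
      ext r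
      have := congrFun hu (e r)
      simpa [Matrix.vecMul, dotProduct, Matrix.submatrix_apply] using this
    set x : (Σ i, Fin (δ i + 1)) → K := fun r => v (Sum.inl r) with hx
    set y : (Σ c, Fin (ε c)) → K := fun r => v (Sum.inr r) with hy
    have hvxy : v = Sum.elim x y := by ext r; cases r <;> rfl
    set u1 : (Σ i, Fin (δ i)) → K := fun r => u (Sum.inl r) with hu1
    set u2 : (Σ c, Fin (ε c + 1)) → K := fun r => u (Sum.inr r) with hu2
    have huu : u = Sum.elim u1 u2 := by ext r; cases r <;> rfl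
    have hx0 : x ≠ 0 := by
      intro h0
      apply hv0
      rw [hvxy, Em, fromBlocks_mulVec] at hv
      have h3 := congrArg (fun w => fun r => w (Sum.inr r)) hv
      have h4 : y = 0 := by
        apply h2
        rw [← Matrix.mulVec_transpose]
        ext r
        have := congrFun h3 r
        simpa [h0] using this
      rw [hvxy, h0, h4]
      ext r; cases r <;> rfl
    have hu20 : u2 ≠ 0 := by
      intro h0
      apply hu0
      rw [huu, Em, vecMul_fromBlocks] at hu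
      have h3 := congrArg (fun w => fun r => w (Sum.inl r)) hu
      have h4 : u1 = 0 := by
        apply h1
        ext r
        have := congrFun h3 r
        simpa [h0] using this
      rw [huu, h0, h4]
      ext r; cases r <;> rfl
    -- evaluation point
    obtain ⟨⟨i, a⟩, hia⟩ : ∃ r, x r ≠ 0 := by
      by_contra hcon; push Not at hcon; exact hx0 (funext hcon)
    obtain ⟨⟨c, b⟩, hcb⟩ : ∃ r, u2 r ≠ 0 := by
      by_contra hcon; push Not at hcon; exact hu20 (funext hcon)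
    set p : K[X] := ∑ a : Fin (δ i + 1), C (x ⟨i, a⟩) * X ^ a.val with hp
    set q : K[X] := ∑ b : Fin (ε c + 1), C (u2 ⟨c, b⟩) * X ^ b.val with hq
    have hp0 : p ≠ 0 := by
      intro h0
      apply hia
      have := congrArg (fun r => r.coeff a.val) h0
      simp only [hp, finsetSum_coeff, coeff_zero] at this
      rw [Finset.sum_eq_single a] at this
      · simpa using this
      · intro b _ hb
        rw [coeff_C_mul_X_pow, if_neg fun h => hb (Fin.ext h.symm)]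
      · simp
    have hq0 : q ≠ 0 := by
      intro h0
      apply hcb
      have := congrArg (fun r => r.coeff b.val) h0
      simp only [hq, finsetSum_coeff, coeff_zero] at this
      rw [Finset.sum_eq_single b] at this
      · simpa using this
      · intro b' _ hb
        rw [coeff_C_mul_X_pow, if_neg fun h => hb (Fin.ext h.symm)]
      · simp
    obtain ⟨z, hz⟩ : ∃ z, (p * q).eval z ≠ 0 := by
      by_contra hcon
      push Not at hcon
      exact mul_ne_zero hp0 hq0 (Polynomial.funext fun z => by rw [hcon z, eval_zero])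
    set h' : κ → ι → ℕ → K := fun c' i' n => h c' i' n + if c' = c ∧ i' = i then z ^ n else 0
      with hh'
    -- the perturbation formula
    have hpert : ∀ w : ((Σ i, Fin (δ i + 1)) ⊕ (Σ c, Fin (ε c))) → K,
        Em δ ε Φ Ψ h' *ᵥ w = Em δ ε Φ Ψ h *ᵥ w + (∑ a, w (Sum.inl ⟨i, a⟩) * z ^ a.val) •
          (Sum.elim (0 : (Σ i, Fin (δ i)) → K)
            (fun s : Σ c, Fin (ε c + 1) => if s.1 = c then z ^ s.2.val else 0)) := by
      intro w
      have hw : w = Sum.elim (fun r => w (Sum.inl r)) (fun r => w (Sum.inr r)) := by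
        ext r; cases r <;> rfl
      have hH : ∀ s : Σ c, Fin (ε c + 1), (Hk δ ε h' *ᵥ fun r => w (Sum.inl r)) s
          = (Hk δ ε h *ᵥ fun r => w (Sum.inl r)) s
            + (∑ a, w (Sum.inl ⟨i, a⟩) * z ^ a.val) * (if s.1 = c then z ^ s.2.val else 0) := by
        rintro ⟨c', b'⟩
        simp only [Matrix.mulVec, dotProduct, Hk, hh', add_mul, Finset.sum_add_distrib]
        congr 1
        rw [Fintype.sum_sigma, Finset.sum_eq_single i]
        · by_cases hc : c' = c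
          · simp only [hc, true_and, if_true, Finset.sum_mul]
            refine Finset.sum_congr rfl fun a _ => ?_
            rw [pow_add]
            ring
          · simp [hc]
        · intro i' _ hi'
          apply Finset.sum_eq_zero
          intro a _
          simp [hi']
        · simp
      rw [hw, Em, Em, fromBlocks_mulVec, fromBlocks_mulVec]
      ext r
      rcases r with r | r
      · simp
      · have := hH r
        simp only [Sum.elim_inr, Pi.add_apply, Pi.smul_apply, smul_eq_mul, Sum.elim_comp_inl,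
          Sum.elim_comp_inr, Sum.elim_inl] at this ⊢
        rw [this]
        ring
    have hug : u ⬝ᵥ (Sum.elim (0 : (Σ i, Fin (δ i)) → K) (fun s : Σ c, Fin (ε c + 1) => if s.1 = c then z ^ s.2.val else 0))
        = q.eval z := by
      rw [huu, dotProduct, Fintype.sum_sum_type]
      simp only [Sum.elim_inl, Pi.zero_apply, mul_zero, Finset.sum_const_zero, zero_add,
        Sum.elim_inr]
      rw [Fintype.sum_sigma, Finset.sum_eq_single c]
      · rw [hq, eval_finsetSum]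
        simp
      · intro c' _ hc'
        apply Finset.sum_eq_zero
        intro b _
        simp [hc']
      · simp
    have hqz : q.eval z ≠ 0 := by
      intro h0; apply hz; rw [eval_mul, h0, mul_zero]
    have hpz : p.eval z ≠ 0 := by
      intro h0; apply hz; rw [eval_mul, h0, zero_mul]
    have hw0 : ∀ w, Em δ ε Φ Ψ h' *ᵥ w = 0 → (∑ a, w (Sum.inl ⟨i, a⟩) * z ^ a.val) = 0 := by
      intro w hw
      have h3 := congrArg (fun t => u ⬝ᵥ t) (hpert w)
      simp only [hw, dotProduct_zero, dotProduct_add, dotProduct_smul, hug, dotProduct_mulVec, hu,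
        zero_dotProduct, zero_add, smul_eq_mul] at h3
      exact (mul_eq_zero.1 h3.symm).resolve_right hqz
    refine ih _ ?_ h' rfl
    rw [← hn]
    apply Submodule.finrank_lt_finrank_of_lt
    refine lt_of_le_of_ne ?_ ?_
    · intro w hw
      rw [LinearMap.mem_ker, mulVecLin_apply] at hw ⊢
      have h3 := hpert w
      rw [hw0 w hw, zero_smul, add_zero, hw] at h3
      exact h3.symm
    · intro heq
      have hvk : v ∈ LinearMap.ker (Em δ ε Φ Ψ h).mulVecLin := by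
        rw [LinearMap.mem_ker, mulVecLin_apply]; exact hv
      rw [← heq, LinearMap.mem_ker, mulVecLin_apply] at hvk
      have h3 := hw0 v hvk
      apply hpz
      rw [hp, eval_finsetSum, ← h3]
      simp [hx]

end Pool.Agent.Q6.PencilMatrix
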